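import Pool.Agent.H561R2.LN.Final

/-!
# A linear language whose complement is hard for decomposable circuits

A decomposable circuit (`Circ`) reads the letters of a word. It has unrestricted OR gates
(nondeterminism), AND gates whose inputs depend on disjoint sets of positions, and decision gates
(with one child for every letter) whose position is not used below. The leaves may be arbitrary
functions of few positions. Circuits with OR gates and decision gates only are the nondeterministic
read-once branching programs.

The language consists of the words `x # α # v # αᴿ # t` where `α` is a word of bits and `v` contains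
the letter `$`. It is linear. On words made of `64 * 2 ^ c` blocks of `c + 1` bits on each side of a
dollar sign its complement is exponentially hard.
-/

namespace Pool.Agent.Results.MP_26f0da_lc.ComplementReadOnce

open Pool.Agent.H561R2.RO Pool.Agent.H561R2.LN

theorem result : ∃ (T : Type) (_ : Fintype T) (g : ContextFreeGrammar T), IsLinear g ∧
    ∀ (c N S : ℕ), N = 128 * 2 ^ c * (c + 2) + 3 →
    ∀ (C : Circ (Fin N) T S) (out : Fin S), C.LeafLE (36 * 2 ^ c) →
      (∀ w : Fin N → T, C.Acc w out ↔ List.ofFn w ∉ g.language) → 2 ^ 2 ^ c ≤ S ^ 2 := by
  refine ⟨Lt, Fintype.ofList letters mem_letters, gram, gram_linear, ?_⟩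
  intro c N S hN C out hleaf hC
  obtain rfl : N = 2 * (64 * 2 ^ c * (c + 2) + 1) + 1 := by rw [hN]; ring
  exact lower C out hleaf hC

end Pool.Agent.Results.MP_26f0da_lc.ComplementReadOnce
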